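import Pool.Agent.Run7.h830.GN.Fin
import Pool.Agent.Run7.h830.CS.Deg

/-!
# Vojta's inequality for the curves of bounded gonality on surfaces which are dominated by a surface with
a map with many preperiodic points

`X` is a complex projective surface (an integral closed subvariety of dimension two of a projective space,
smooth or singular), given by its function field `E` and the homogeneous coordinates `x` of its generic
point: `coords ℂ x = ⊤` says that the ratios of the coordinates generate `E`. `K` is a finite extension of
`E` of degree at most `r`: the function field of a surface `X₁` with a dominant rational map `X₁ ⇢ X` of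
degree at most `r` (for instance `X₁ = X`).

`ManyPrep ℂ d B p q` (`Pool/Agent/Q103/EC/Mxv.lean`): `f = p / q` is a rational map of degree `d` of the
projective line over `K` (a family of rational maps over an open subset of `X₁`) with at least `B`
preperiodic points in `P^1(K)` (preperiodic rational sections), and the moduli map `X₁ ⇢ M_d` is generically
finite: if `f` is conjugate over an algebraic closure of `K` to a map with coefficients algebraic over a
field between `ℂ` and `K`, then `K` is algebraic over this field. For all `B` there are such surfaces
(`Pool.Agent.Q103.SF.exists_surface`: the surfaces of the quadratic maps with a marked point of exact period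
`n`, and all their covers).

A curve `C` in `X` is given by its function field `L` (`IsFF ℂ L`: a function field of one variable) and its
generic point `v` (`OnVar ℂ x v`: the forms which vanish at `x` vanish at `v`; `coords ℂ v = ⊤`: the ratios of
the coordinates of `v` generate `L`). `van v` is the set of the forms which vanish on `C`, it determines `C`.
`canDeg ℂ L = 2 g - 2`, where `g` is the geometric genus of `C`. `Gon ℂ γ L`: the field `L` has degree at most
`γ` over a subfield `ℂ(t)`, that is, the gonality of (the normalization of) `C` is at most `γ`.

Theorem. For all `d ≥ 2`, `r` and `γ` there is a number `B` such that each surface `X` which is dominated with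
degree at most `r` by a surface `X₁` which carries a rational map `f` of degree `d` with at least `B`
preperiodic points in `P^1(K)` and generically finite moduli map, contains only finitely many curves of
gonality at most `γ`. So for each function `κ` of the curves in `X`, in particular `κ(C) = K_X · C`, and for
all `ε > 0` there is `C₀` such that `κ(C) ≤ ε (g - 1) + C₀` for all curves `C` of gonality at most `γ` in `X`:
this is the inequality of Q1 for these curves, with `ε` instead of `4 + ε`.

This is the analogue of the theorem of Nadel and others on curves of bounded gonality in the quotients of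
bounded symmetric domains by congruence subgroups of high level. For `γ = 1` the surface contains only
finitely many rational curves, for `γ = 2` only finitely many curves which are rational, elliptic or
hyperelliptic.

Proof. The map and its preperiodic points specialize to almost all curves `C` in `X`; the specialization is a
map over an extension `L'` of `L` of degree at most `r`, so over a field of gonality at most `r γ`. By the
theorem of strong uniform boundedness over function fields (helper41, helper103, helper144 and others,
helper files of the starting tree) the cross ratios of its preperiodic points are constant if there are more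
than `B(d, r γ)` of them. But the coordinates of the generic point of `C` are algebraic over the field of the
cross ratios.
-/

set_option autoImplicit false

namespace Pool.Agent.Results.MP_79ab39_ag.CurvesOfBoundedGonality

open FF Polynomial
open Pool.Agent.W602.GT (coords)
open Pool.Agent.Y216 (OnVar)
open Pool.Agent.W603.LV (canDeg)
open Pool.Agent.Q103.EC (ManyPrep)
open Pool.Agent.Q103.SF (van)
open Pool.Agent.Run7.h830.GN (Gon)

/-- the closed curves of gonality at most `γ` in the projective variety with the generic point `x`, each
given by the set of the forms which vanish on it -/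
def gonCurves (γ : ℕ) {M : ℕ} {E : Type} [Field E] [Algebra ℂ E] (x : Fin (M + 1) → E) :
    Set (Set (MvPolynomial (Fin (M + 1)) ℂ)) :=
  {V | ∃ (L : Type) (_ : Field L) (_ : Algebra ℂ L) (_ : IsFF ℂ L) (v : Fin (M + 1) → L),
    OnVar ℂ x v ∧ coords ℂ v = ⊤ ∧ Gon ℂ γ L ∧ V = van v}

/-- **Curves of bounded gonality** on the surfaces which are dominated by a surface with a map with many
preperiodic points. -/
theorem result (d : ℕ) (hd : 2 ≤ d) (r γ : ℕ) : ∃ B : ℕ, ∀ (E K : Type) [Field E] [Algebra ℂ E]
    [Field K] [Algebra ℂ K] [Algebra E K] [IsScalarTower ℂ E K] [FiniteDimensional E K]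
    (p q : K[X]), Module.finrank E K ≤ r → ManyPrep ℂ d B p q → Algebra.trdeg ℂ E = (2 : ℕ) →
    ∀ (M : ℕ) (x : Fin (M + 1) → E), x ≠ 0 → coords ℂ x = ⊤ →
    (gonCurves γ x).Finite ∧
    ∀ (κ : Set (MvPolynomial (Fin (M + 1)) ℂ) → ℝ) (ε : ℝ), 0 < ε → ∃ C₀ : ℝ, ∀ (L : Type)
      [Field L] [Algebra ℂ L] [IsFF ℂ L] (v : Fin (M + 1) → L), OnVar ℂ x v → coords ℂ v = ⊤ →
      Gon ℂ γ L → κ (van v) ≤ ε * ((canDeg ℂ L : ℝ) / 2) + C₀ := by
  obtain ⟨B, hB⟩ := Pool.Agent.Run7.h830.GN.bounded d hd r γ
  refine ⟨B, ?_⟩
  intro E K _ _ _ _ _ _ _ p q hr hpq htr M x hx hgen
  obtain ⟨R, hR, hxR, h⟩ := hB ℂ E K hr p q hpq M x hx hgen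
  have hfin : (gonCurves γ x).Finite := by
    refine (Pool.Agent.Run7.h830.GN.finite_gon htr hR hxR h).subset ?_
    rintro V ⟨L, _, _, _, v, hv, hvgen, hgon, rfl⟩
    exact ⟨L, inferInstance, inferInstance, v, hv,
      Pool.Agent.Q103.SF.nonconst_of_low hv hvgen, hgon, rfl⟩
  refine ⟨hfin, fun κ ε hε => ?_⟩
  obtain ⟨b, hb⟩ := (hfin.image κ).bddAbove
  refine ⟨b + ε, ?_⟩
  intro L _ _ _ v hv hvgen hgon
  have h1 : κ (van v) ≤ b := hb ⟨van v, ⟨L, inferInstance, inferInstance, inferInstance, v, hv, hvgen,
    hgon, rfl⟩, rfl⟩
  have h2 : (-2 : ℤ) ≤ canDeg ℂ L := Pool.Agent.Run7.h830.CS.canDeg_ge_neg_two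
  have h3 : (-2 : ℝ) ≤ (canDeg ℂ L : ℝ) := by exact_mod_cast h2
  nlinarith

end Pool.Agent.Results.MP_79ab39_ag.CurvesOfBoundedGonality
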