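import Pool.Agent.Run7.h621.MP.Surf

/-!
MP_79ab39_ag, Q1: Vojta's inequality `k_C ≤ 4 (g - 1)` for all curves on generic and nearly generic
complete intersection surfaces in products of projective spaces, and in closed subsets of them.

Let `K` be an algebraically closed field of characteristic `0`, such as the complex numbers, and let
`k` be a field contained in `K`, such as the rational numbers, with algebraic closure `k'` in `K`.
Let `V` be a closed subset of a product of projective spaces of dimensions `n_i`, defined over `k'`,
of dimension at most `m`, whose projection to the factor `i` has dimension at most `m_i`. For `a` in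
a finite set `A` with `m - 2` elements, let `F_a` be a member of a linear system over `k'` of forms of
degrees `d_{a,i}` in the coordinates `x_{i,0}, x_{i,1}, ...` of the factor `i`, spanned by the forms
`P_{a,j}`, with the coefficients `t_{a,j}`, and let `N` be the number of the ratios of the `t_{a,j}`
to one of them, for all `a` together: the dimension of the space of parameters. The ratios are
supposed to generate a field of transcendence degree at least `N - s` over `k`. For `s = 0`, this says
that they are algebraically independent: the `F_a` are generic. In general it says that the point of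
the space of parameters is not in any closed subset over `k` of codimension more than `s`.

Let `X` be the complete intersection `F_a = 0`, `a` in `A`, in `V`. Let `v_i` be integers with

  `v_i + 2 m_i + 4 + 2 s ≤ ∑_a d_{a,i}` for all `i`.

(1) Then for all nonconstant maps `f` from a smooth projective curve of genus `g` to `X`

  `∑_i (v_i + ∑_a d_{a,i}) deg_i f ≤ 4 (g - 1)`,

where `deg_i f` is the degree of the pullback of `O(1)` from the factor `i`.

If `V` and `X` are smooth, and the canonical class of `V` is `∑_i v_i H_i`, where `H_i` is the
pullback of a hyperplane in the factor `i`, then the canonical class of `X` is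
`∑_i (v_i + ∑_a d_{a,i}) H_i`, and for the normalisation of a curve `C` on `X` the left side is
`k_C = K_X · C`. So `k_C ≤ 4 (g - 1)` for all curves `C` on `X`: the inequality in Q1 holds for `X`
with `ε = 0` and `B = 0`.

(2) For example let `V` be the product of the projective spaces (no equations), with `m = ∑_i n_i`
and `m_i = n_i`, and let `K_X = ∑_i κ_i H_i`, so that `v_i = - n_i - 1` and
`κ_i = ∑_a d_{a,i} - n_i - 1`. The condition says that `κ_i ≥ 2 + 2 s` for all `i`. So Q1 holds for
the generic complete intersections with `κ_i ≥ 2` for all `i`, and for those which are in no closed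
subset of codimension more than `s` of the space of parameters if `κ_i ≥ 2 + 2 s`: for instance, in
`P^3`, for all surfaces of degree `d ≥ 6 + 2 s` outside of a countable union of closed subsets of
codimension more than `s`.

The linear systems need not be complete. Let `Z` be a set of choices `c` of an index `c_i` for each
factor such that each of the linear systems contains all products of the monomials
`x_{i,c_i} ^ (d_{a,i} - e_i) x_{i,j_i} ^ e_i` over the `i`. The theorem is for the maps `f` such that
for some `c` in `Z` no `x_{i,c_i}` is `0` on the image, so for all maps if the linear systems are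
complete.

The curve is given by its function field `L`, and the map by multihomogeneous coordinates `x` in `L`;
`canDeg K L` is `2 g - 2`, and `pht K y` is the degree of the map to projective space with the
coordinates `y`.
-/

set_option autoImplicit false

namespace Pool.Agent.Results.MP_79ab39_ag.MultiprojectiveSurfaces

open MvPolynomial FF Pool.Agent.W603.LV Pool.Agent.W603.PV Pool.Agent.W602.GT
  Pool.Agent.Run7.h621.MP.Stm

theorem result {k K : Type} [Field k] [Field K] [IsAlgClosed K] [CharZero K] [Algebra k K]
    {ι : Type} [Fintype ι] [DecidableEq ι] {n : ι → ℕ} {m s : ℕ} {mi : ι → ℕ} :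
    -- (1) a closed subset of a product of projective spaces, of dimension at most `m`, whose
    -- projection to the factor `i` has dimension at most `mi i`
    (∀ (V : Set (MvPolynomial (Coords n) (algebraicClosure k K))), SetDim V m mi →
      -- linear systems of forms of degrees `d a i`, which contain the products of the monomials in
      -- `x_{i, c i}` and another coordinate of the factor `i`, for `c ∈ Z`
      ∀ {A : Type} [Fintype A] (d : A → ι → ℕ) {J : A → Type} [∀ a, Fintype (J a)]
      (P : ∀ a, J a → MvPolynomial (Coords n) (algebraicClosure k K)),
      (∀ a j, IsForm (P a j) (d a)) → ∀ (Z : Set (∀ i, Fin (n i + 1))),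
      (∀ c ∈ Z, ∀ a, HasMonomials (P a) (d a) c) →
      -- the coefficients; their ratios generate a field of transcendence degree at least their
      -- number minus `s`
      ∀ (t : ∀ a, J a → K) (j0 : ∀ a, J a), CodimLE k t j0 s →
      -- the equations `F a = 0` of the surface
      ∀ (F : A → MvPolynomial (Coords n) K),
      (∀ a, F a =
        ∑ j, MvPolynomial.C (t a j) * map (algebraMap (algebraicClosure k K) K) (P a j)) →
      Fintype.card A + 2 = m →
      -- the condition for the degrees
      ∀ (v : ι → ℤ), (∀ i, v i + 2 * mi i + 4 + 2 * s ≤ ∑ a, (d a i : ℤ)) →
      -- a nonconstant map from the curve with function field `L`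
      ∀ (L : Type) [Field L] [Algebra K L] [IsFF K L] (x : Coords n → L),
      (∃ c ∈ Z, ∀ i, x ⟨i, c i⟩ ≠ 0) → OnPair V F Finset.univ x →
      (∃ (i : ι) (j l : Fin (n i + 1)), Transcendental K (x ⟨i, j⟩ / x ⟨i, l⟩)) →
      ∑ i, (v i + ∑ a, (d a i : ℤ)) * pht K (fun j => x ⟨i, j⟩) ≤ 2 * canDeg K L) ∧
    -- (2) `V` can be the product of the projective spaces
    SetDim (∅ : Set (MvPolynomial (Coords n) (algebraicClosure k K))) (∑ i, n i) n := by
  classical
  refine ⟨?_, setDim_top _ n⟩
  intro V hV A _ d J _ P hP Z hZ t j0 hgen F hF hA v hv L _ _ _ x hx0 hx hnc
  have h1 := surface hV hP hZ hgen hF hA v (α := 2) (by norm_num) (fun i => by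
    have h2 : ((v i + 2 * mi i + 4 + 2 * s : ℤ) : ℝ) ≤ ((∑ a, (d a i : ℤ) : ℤ) : ℝ) := by
      exact_mod_cast hv i
    push_cast at h2
    linarith) hx0 hx hnc
  exact_mod_cast h1

end Pool.Agent.Results.MP_79ab39_ag.MultiprojectiveSurfaces
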