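import Pool.Agent.Run7.h493.SR.All
import Pool.Agent.Run7.h493.SR.Deg

/-!
MP_79ab39_ag, Q1: canonical degrees of curves on surfaces whose function fields contain the roots of
high order of the quotients of at least `n + 2` Zariski-general forms, of any degrees, on an arbitrary
projective variety of dimension `n`.

Let `V` be a closed subset of the complex projective space `ℙ ^ M`, of dimension at most `n`; it may
be singular or reducible. Let `q ≥ n + 2`, and let `d_1, …, d_q` be positive integers of which at
most `2 (q - n - 1)` are equal to one (for example: all `d_b ≥ 2`).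

THEOREM. There are a nonzero polynomial `Φ` in the coefficients of `q` forms of degrees
`d_1, …, d_q`, and numbers `m₀` and `A₀`, with the following property. Let `F_1, …, F_q` be forms of
degrees `d_1, …, d_q` such that `Φ (F) ≠ 0`, and let `m ≥ m₀`.

(1) Let `L` be the function field of a smooth projective curve `C` of genus `g`, and let `u : C → V` be a
  morphism (a point `u` of `V` over `L`) whose image is not contained in one of the hypersurfaces
  `F_b = 0`, such that `L` contains `m`-th roots of the rational functions
  `F_b (u) ^ {d_c} / F_c (u) ^ {d_b}`. Then `deg u ≤ A₀ max (2 g - 2, 0)`.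

(2) Let `K` be the function field of a surface, and let `v` be a generically finite rational map from the
  surface to `V` (a point `v` of `V` over `K` such that `K` is algebraic over the field generated by the
  ratios of the coordinates of `v`), whose image is not contained in one of the hypersurfaces `F_b = 0`,
  such that the field `K` contains `m`-th roots of the rational functions
  `F_b (v) ^ {d_c} / F_c (v) ^ {d_b}`. Then for every projective surface `X` with the function field `K`,
  smooth or singular, and every embedding of `X` in a projective space there are constants `A` and `B`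
  such that for all curves `C` in `X`, of any geometric genus `g ≥ 0`,

  `deg C ≤ A (2 g - 2) + B`.

So if `X` is smooth then `K_X · C ≤ c deg C ≤ 2 c A (g - 1) + c B`, where `c` is a number such that
`c H - K_X` is generated by its global sections, `H` a hyperplane section: this is the inequality of
Q1 with the constant `2 c A` instead of `4 + ε`. There is no assumption on `K_X ^ 2` and `c_2` (as there is
in the theorem of Miyaoka). The surfaces `X` are of general type
(`Pool.Agent.Results.MP_dc0411_ag.SurfacesWithRoots`). In (1) the constant `A₀` depends only on `V` and the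
degrees; it does not depend on `m`, the forms, and the surfaces which contain the curve.

The proof. (1) is the height inequality of helper789 (`Pool.Agent.Run7.h789.RC.hgt_main`): if `L` contains
the roots then the curve meets the hypersurfaces with multiplicities which are zero or large. The roots
specialise from `K` to the curves in `X` which are not contained in a proper closed subset
(`Run7.h493.SR.exists_under`), and the degree of such a curve is bounded by that of its image in `V`. So its
degree is at most `A max (2 g - 2, 0)`. For the finitely many other curves, and the curves of genus `≤ 1`, see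
the starting files `Pool/Agent/Q103/SF`, `Pool/Agent/Q96/HE`, and `Pool/Agent/Run7/h830/CS/Deg.lean`
(helper830).

A curve `C` in `X` is given by its function field `L` (`IsFF ℂ L`: a function field of one variable) and its
generic point `y` (`OnVar ℂ x y`: the forms which vanish at `x` vanish at `y`; `coords ℂ y = ⊤`: the ratios
of the coordinates of `y` generate `L`). Then `canDeg ℂ L = 2 g - 2`, where `g` is the geometric genus of
`C`, and `pht ℂ y` is the degree of the curve `C` in the projective space.
-/

set_option autoImplicit false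

namespace Pool.Agent.Results.MP_79ab39_ag.SurfacesWithRoots

open MvPolynomial FF
open Pool.Agent.W602.GT (coords)
open Pool.Agent.Y216 (OnVar)
open Pool.Agent.W603.LV (canDeg)
open Pool.Agent.W603.PV (pht)

variable {M n q : ℕ}

/-- The closed subset of `ℙ ^ M` given by the forms in `V` has dimension at most `n`: there are
`n + 1` linear forms without common zero on it. -/
def DimLE (V : Set (MvPolynomial (Fin (M + 1)) ℂ)) (n : ℕ) : Prop :=
  ∃ ℓ : Fin (n + 1) → MvPolynomial (Fin (M + 1)) ℂ, (∀ j, (ℓ j).IsHomogeneous 1) ∧
    ∀ y : Fin (M + 1) → ℂ, (∀ H ∈ V, eval y H = 0) → (∀ j, eval y (ℓ j) = 0) → y = 0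

/-- The numerical condition. -/
def Degrees (n : ℕ) {q : ℕ} (d : Fin q → ℕ) : Prop :=
  (∀ b, 1 ≤ d b) ∧ n + 2 ≤ q ∧ (Finset.univ.filter fun b => d b = 1).card ≤ 2 * (q - n - 1)

/-- The indices of the coefficients of `q` forms of degrees `d b` in `M + 1` variables. -/
abbrev Index (M : ℕ) {q : ℕ} (d : Fin q → ℕ) : Type :=
  (b : Fin q) × {β : Fin (M + 1) →₀ ℕ // β.degree = d b}

/-- `F` is a family of forms of degrees `d b`, and `Φ (F) ≠ 0`. -/
def General {d : Fin q → ℕ} (Φ : MvPolynomial (Index M d) ℂ)
    (F : Fin q → MvPolynomial (Fin (M + 1)) ℂ) : Prop :=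
  (∀ b, (F b).IsHomogeneous (d b)) ∧ eval (fun s : Index M d => coeff s.2.1 (F s.1)) Φ ≠ 0

/-- `v` is a point over `K` of the closed subset of `ℙ ^ M` given by the forms in `V`, not contained in
one of the hypersurfaces `F b = 0`, and the field `K` contains `m`-th roots of the rational functions
`F b ^ d c / F c ^ d b` at the point `v`. -/
structure WithRoots (V : Set (MvPolynomial (Fin (M + 1)) ℂ)) (d : Fin q → ℕ)
    (F : Fin q → MvPolynomial (Fin (M + 1)) ℂ) (m : ℕ) {K : Type} [Field K] [Algebra ℂ K]
    (v : Fin (M + 1) → K) : Prop where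
  ne : v ≠ 0
  mem : ∀ H ∈ V, aeval v H = 0
  off : ∀ b, aeval v (F b) ≠ 0
  root : ∀ b c, ∃ ρ : K, ρ ^ m * aeval v (F c) ^ d b = aeval v (F b) ^ d c

/-- Let `V` be a closed subset of the projective space `ℙ ^ M`, of dimension at most `n`, and let
`d b` be degrees which satisfy the numerical condition. There are numbers `m₀`, `A₀` and a nonzero
polynomial `Φ` such that for all forms `F b` of degrees `d b` with `Φ (F) ≠ 0` and all `m ≥ m₀`:

(1) for all function fields `L` of curves, of genus `g`, and all points `u` of `V` over `L`, not contained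
  in a hypersurface `F b = 0`, such that `L` contains `m`-th roots of the rational functions
  `F b (u) ^ d c / F c (u) ^ d b`, the degree of `u` is at most `A₀ * max (2 * g - 2) 0`;
(2) for all function fields `K` of surfaces, and all generically finite rational maps `v` to `V` with an
  image which is not contained in a hypersurface `F b = 0`, such that `K` contains `m`-th roots of the
  rational functions `F b (v) ^ d c / F c (v) ^ d b`, and for every projective surface `X ⊆ ℙ ^ N` with the
  function field `K` and the generic point `x`, there are constants `A`, `B` such that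
  `deg C ≤ A * (2 * g - 2) + B` for all curves `C` in `X`, of geometric genus `g`. -/
theorem result (V : Set (MvPolynomial (Fin (M + 1)) ℂ)) (hV : ∀ H ∈ V, ∃ e, H.IsHomogeneous e)
    (hn : DimLE V n) (d : Fin q → ℕ) (hd : Degrees n d) :
    ∃ (m₀ A₀ : ℕ) (Φ : MvPolynomial (Index M d) ℂ), Φ ≠ 0 ∧
      ∀ F : Fin q → MvPolynomial (Fin (M + 1)) ℂ, General Φ F → ∀ m, m₀ ≤ m →
      (∀ (L : Type) [Field L] [Algebra ℂ L] [IsFF ℂ L] (u : Fin (M + 1) → L),
        WithRoots V d F m u → pht ℂ u ≤ A₀ * max (canDeg ℂ L) 0) ∧
      ∀ (K : Type) [Field K] [Algebra ℂ K] (v : Fin (M + 1) → K), Algebra.trdeg ℂ K = (2 : ℕ) →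
        WithRoots V d F m v → Algebra.IsAlgebraic (coords ℂ v) K →
        ∀ (N : ℕ) (x : Fin (N + 1) → K), x ≠ 0 → coords ℂ x = ⊤ →
          ∃ A B : ℕ, ∀ (L : Type) [Field L] [Algebra ℂ L] [IsFF ℂ L] (y : Fin (N + 1) → L),
            OnVar ℂ x y → coords ℂ y = ⊤ → pht ℂ y ≤ A * canDeg ℂ L + B := by
  classical
  obtain ⟨ℓ, hℓ, hZ⟩ := hn
  have hN : Pool.Agent.NH29.GN.NoZero V ℓ := Pool.Agent.NH29.GN.Fn.noZero_of_points (K := ℂ) hZ
  obtain ⟨hd1, hd2, hd3⟩ := hd
  have hnum : ∀ C : Finset (Fin q), C ≠ Finset.univ → Pool.Agent.NH29.GN.Num2 n d C :=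
    fun C hC => Pool.Agent.NH29.GN.Fn.num_of_few hd1 hd2 (by omega) C hC
  obtain ⟨r, rfl⟩ : ∃ r, q = r + 1 := ⟨q - 1, by omega⟩
  obtain ⟨B, ι, Φ₂, hΦ₂, hsys⟩ := Pool.Agent.Run7.h789.RC.exists_sys (d := d) hV hℓ hN
    (by omega) hd1 hnum
  obtain ⟨Φ₃, hΦ₃, A₀, μ, hht⟩ := Pool.Agent.Run7.h789.RC.hgt_main hV hℓ hN (by omega) hd1 hnum
  refine ⟨(Run7.h34.UG.mm r B + μ) * ∑ b, d b, A₀, Φ₂ * Φ₃, mul_ne_zero hΦ₂ hΦ₃,
    fun F hF m hm => ?_⟩
  have hF0 := hF.2
  rw [map_mul] at hF0
  have hF2 := left_ne_zero_of_mul hF0
  have hF3 := right_ne_zero_of_mul hF0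
  have hm2 : μ * ∑ b, d b ≤ m := le_trans (Nat.mul_le_mul_right _ (Nat.le_add_left _ _)) hm
  obtain ⟨F', S⟩ := hsys (fun s => coeff s.2.1 (F s.1)) hF2
  have htF : ∀ (L : Type) [Field L] [Algebra ℂ L] (u : Fin (M + 1) → L) b,
      Pool.Agent.NH29.GN.fv (K := ℂ) (L := L)
        (fun s : Pool.Agent.NH29.GN.Idx M d => coeff s.2.1 (F s.1)) u b = aeval u (F b) :=
    fun L _ _ u b => Run7.h493.SR.fv_eq hF.1 u b
  refine ⟨fun L _ _ _ u hu => ?_, fun K _ _ v htr hv halg N x hx hgen => ?_⟩
  · refine hht ℂ L _ hF3 u hu.ne (fun H hH => hu.mem H hH) fun P b hb => ?_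
    exact Run7.h493.SR.contact_of S htF hu.ne hu.mem hu.root hm2 P b hb
  · obtain ⟨j, hj⟩ := Function.ne_iff.1 hv.ne
    obtain ⟨R, hR⟩ := Run7.h493.SR.exists_weakHyp hV hF.1 S htF
      (fun L _ _ _ u hu huV hc => hht ℂ L _ hF3 u hu huV hc) hm hv.mem ⟨j, hj⟩ hv.off hv.root halg hx
      hgen
    exact Run7.h493.SR.degree_bound htr hx hgen hR

end Pool.Agent.Results.MP_79ab39_ag.SurfacesWithRoots
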